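import Pool.Agent.Helper55_DDQ.Stmts

/-!
# Squad DDQ: module CVT (functions of every degree on a plane cubic curve)
-/

set_option autoImplicit false

namespace Pool.Agent.DDQ.H65

open Polynomial IntermediateField

theorem quad_form {E : Type} [Field E] (q : Polynomial E) (h : q.natDegree ≤ 2) :
    q = C (q.coeff 2) * X ^ 2 + C (q.coeff 1) * X + C (q.coeff 0) := by
  conv_lhs => rw [q.as_sum_range_C_mul_X_pow' (show q.natDegree < 3 by omega)]
  simp only [Finset.sum_range_succ, Finset.sum_range_zero, zero_add, pow_zero, mul_one, pow_one]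
  ring

theorem cubic_form {E : Type} [Field E] (q : Polynomial E) (h : q.natDegree ≤ 3) :
    q = C (q.coeff 3) * X ^ 3 + C (q.coeff 2) * X ^ 2 + C (q.coeff 1) * X + C (q.coeff 0) := by
  conv_lhs => rw [q.as_sum_range_C_mul_X_pow' (show q.natDegree < 4 by omega)]
  simp only [Finset.sum_range_succ, Finset.sum_range_zero, zero_add, pow_zero, mul_one, pow_one]
  ring

theorem main_step (swp : SwpStmt) (E L : Type) [Field E] [Field L] [Algebra E L] (M Z : L)
    (q₂ q₃ κ : Polynomial E) (s k : ℕ) (hM : Transcendental E M) (hadj : adjoin E {M, Z} = ⊤)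
    (hfr : Module.finrank (adjoin E {M}) L = 2) (h2 : q₂.natDegree ≤ 2)
    (hrel : Z ^ 2 + Polynomial.aeval M q₂ * Z + Polynomial.aeval M q₃ = 0)
    (hκ : κ.natDegree ≤ 2) (hP : (κ ^ 2 + q₂ * κ + q₃).natDegree ≤ k)
    (hc : (κ ^ 2 + q₂ * κ + q₃).coeff k ≠ 0) (hk : 2 ≤ k) :
    ∃ t : L, Transcendental E t ∧ Module.finrank (adjoin E {t}) L = 2 * s + k := by
  have hM0 : M ≠ 0 := by
    rintro rfl
    exact hM isAlgebraic_zero
  set P := κ ^ 2 + q₂ * κ + q₃ with hPdef
  set b : Polynomial E := (2 * κ + q₂) * X ^ s with hb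
  set c : Polynomial E := P * X ^ (2 * s) with hcdef
  set H : Polynomial (Polynomial E) := C 1 * X ^ 2 + C b * X + C c with hH
  have hdeg : H.natDegree = 2 := natDegree_quadratic one_ne_zero
  have hmon : H.Monic := by
    rw [Monic, hH, leadingCoeff_quadratic one_ne_zero]
  refine ⟨(Z - aeval M κ) * M ^ s, ?_⟩
  set t : L := (Z - aeval M κ) * M ^ s with ht
  refine swp E L M t H (2 * s + k) hM ?_ hmon.isPrimitive ?_ ?_ ?_ ?_ ?_ (by omega)
  · -- generation
    rw [← top_le_iff, ← hadj, adjoin_le_iff]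
    have hMm : M ∈ adjoin E {M, t} := subset_adjoin E _ (Set.mem_insert _ _)
    have htm : t ∈ adjoin E {M, t} := subset_adjoin E _ (Set.mem_insert_of_mem _ rfl)
    rintro x (rfl | hx)
    · exact hMm
    · rw [Set.mem_singleton_iff] at hx
      have h1 : aeval M κ ∈ adjoin E {M, t} := by
        have h3 : aeval M κ ∈ Algebra.adjoin E {M} := aeval_mem_adjoin_singleton E M
        have h4 : Algebra.adjoin E {M} ≤ (adjoin E {M, t}).toSubalgebra := by
          rw [Algebra.adjoin_le_iff]
          rintro y hy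
          rw [Set.mem_singleton_iff] at hy
          rw [hy]
          exact hMm
        exact h4 h3
      have h5 : x = t / M ^ s + aeval M κ := by
        rw [hx, ht]
        field_simp
        ring
      rw [h5]
      exact add_mem (div_mem htm (pow_mem hMm s)) h1
  · -- relation
    rw [hH]
    simp only [eval₂_add, eval₂_mul, eval₂_C, eval₂_pow, eval₂_X, map_one, one_mul]
    change t ^ 2 + aeval M b * t + aeval M c = 0
    rw [hb, hcdef, hPdef, ht]
    simp only [map_mul, map_add, map_pow, aeval_X, map_ofNat]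
    linear_combination (M ^ s) ^ 2 * hrel
  · rw [hdeg, hfr]
  · rw [hdeg]
    norm_num
  · intro i
    have hb' : b.natDegree ≤ 2 * s + k := by
      refine natDegree_mul_le.trans ?_
      have h3 : (2 * κ + q₂).natDegree ≤ 2 := by
        refine (natDegree_add_le _ _).trans (max_le ?_ h2)
        have h6 : (2 : Polynomial E) * κ = C 2 * κ := by
          rw [C_ofNat]
        rw [h6]
        exact (natDegree_C_mul_le _ _).trans hκ
      rw [natDegree_X_pow]
      omega
    have hc' : c.natDegree ≤ 2 * s + k := by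
      refine natDegree_mul_le.trans ?_
      rw [natDegree_X_pow]
      omega
    rw [hH]
    rcases i with _ | _ | _ | i
    · have h3 : (C 1 * X ^ 2 + C b * X + C c : Polynomial (Polynomial E)).coeff 0 = c := by simp
      rw [h3]
      exact hc'
    · have h3 : (C 1 * X ^ 2 + C b * X + C c : Polynomial (Polynomial E)).coeff 1 = b := by
        simp [coeff_X, coeff_C, coeff_X_pow]
      rw [h3]
      exact hb'
    · have h3 : (C 1 * X ^ 2 + C b * X + C c : Polynomial (Polynomial E)).coeff 2 = 1 := by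
        simp [coeff_X, coeff_C, coeff_X_pow]
      rw [h3, natDegree_one]
      omega
    · have h3 : (C 1 * X ^ 2 + C b * X + C c : Polynomial (Polynomial E)).coeff (i + 3) = 0 := by
        rw [← hH]
        exact coeff_eq_zero_of_natDegree_lt (by omega)
      rw [h3, natDegree_zero]
      omega
  · refine ⟨0, ?_⟩
    have h3 : H.coeff 0 = c := by
      rw [hH]
      simp
    rw [h3, hcdef, add_comm (2 * s) k, coeff_mul_X_pow]
    exact hc

theorem cvt (swp : SwpStmt) : CvtStmt := by
  intro E L _ _ _ _ M Z q₂ q₃ hM hadj hfr h2 h3 hne hrel n hn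
  rcases Nat.even_or_odd' n with ⟨r, rfl | rfl⟩
  · rcases Nat.lt_or_ge r 2 with hr | hr
    · have hr1 : r = 1 := by omega
      subst hr1
      exact ⟨M, hM, hfr⟩
    · obtain ⟨s, rfl⟩ : ∃ s, r = s + 2 := ⟨r - 2, by omega⟩
      -- `κ = a X ^ 2` with `a ^ 2 + A a ≠ 0`
      obtain ⟨a, ha⟩ : ∃ a : E, a ^ 2 + q₂.coeff 2 * a ≠ 0 := by
        by_cases h : (1 : E) ^ 2 + q₂.coeff 2 * 1 = 0
        · refine ⟨2, ?_⟩
          have h5 : q₂.coeff 2 = -1 := by linear_combination h
          rw [h5]
          norm_num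
        · exact ⟨1, h⟩
      have h6 : (C a * X ^ 2 : Polynomial E).natDegree ≤ 2 := natDegree_C_mul_X_pow_le _ _
      have h7 : ((C a * X ^ 2) ^ 2 + q₂ * (C a * X ^ 2) + q₃ : Polynomial E).natDegree ≤ 4 := by
        refine (natDegree_add_le _ _).trans (max_le ((natDegree_add_le _ _).trans
          (max_le ?_ ?_)) (by omega))
        · exact natDegree_pow_le.trans (by omega)
        · exact natDegree_mul_le.trans (by omega)
      have h8 : ((C a * X ^ 2) ^ 2 + q₂ * (C a * X ^ 2) + q₃ : Polynomial E).coeff 4 =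
          a ^ 2 + q₂.coeff 2 * a := by
        have h9 : ((C a * X ^ 2) ^ 2 + q₂ * (C a * X ^ 2) + q₃ : Polynomial E) =
            C (a ^ 2) * X ^ 4 + (C a * q₂) * X ^ 2 + q₃ := by
          rw [C_pow]
          ring
        rw [h9, coeff_add, coeff_add, coeff_C_mul_X_pow, if_pos rfl,
          show (4 : ℕ) = 2 + 2 from rfl, coeff_mul_X_pow, coeff_C_mul,
          coeff_eq_zero_of_natDegree_lt (show q₃.natDegree < 2 + 2 by omega)]
        ring
      obtain ⟨t, ht, ht2⟩ := main_step swp E L M Z q₂ q₃ (C a * X ^ 2) s 4 hM hadj hfr h2 hrel h6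
        h7 (by rw [h8]; exact ha) (by norm_num)
      exact ⟨t, ht, by rw [ht2]; ring⟩
  · obtain ⟨s, rfl⟩ : ∃ s, r = s + 1 := ⟨r - 1, by omega⟩
    by_cases hA : q₂.coeff 2 = 0
    · have hC : q₃.coeff 3 ≠ 0 := by
        rcases hne with h | h
        · exact absurd hA h
        · exact h
      have h7 : ((0 : Polynomial E) ^ 2 + q₂ * 0 + q₃) = q₃ := by ring
      obtain ⟨t, ht, ht2⟩ := main_step swp E L M Z q₂ q₃ 0 s 3 hM hadj hfr h2 hrel
        (by rw [natDegree_zero]; omega) (by rw [h7]; exact h3) (by rw [h7]; exact hC) (by norm_num)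
      exact ⟨t, ht, by rw [ht2]; ring⟩
    · set A := q₂.coeff 2 with hAdef
      obtain ⟨b, hbA⟩ : ∃ b : E, b * A = -(1 + A * q₂.coeff 1 - q₃.coeff 3) :=
        ⟨-(1 + A * q₂.coeff 1 - q₃.coeff 3) / A, div_mul_cancel₀ _ hA⟩
      set κ : Polynomial E := C (-A) * X ^ 2 + C b * X with hκ
      have hκd : κ.natDegree ≤ 2 := by
        rw [hκ]
        refine (natDegree_add_le _ _).trans (max_le (natDegree_C_mul_X_pow_le _ _) ?_)
        have h11 := natDegree_C_mul_X_pow_le b 1
        rw [pow_one] at h11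
        omega
      have h9 : κ ^ 2 + q₂ * κ + q₃ = C 1 * X ^ 3 +
          C (b ^ 2 + q₂.coeff 1 * b - q₂.coeff 0 * A + q₃.coeff 2) * X ^ 2 +
          C (q₂.coeff 0 * b + q₃.coeff 1) * X + C (q₃.coeff 0) := by
        have e : (1 : E) = -2 * A * b + A * b - q₂.coeff 1 * A + q₃.coeff 3 := by
          linear_combination hbA
        rw [e]
        conv_lhs => rw [quad_form q₂ h2, cubic_form q₃ h3, ← hAdef, hκ]
        simp only [C_add, C_sub, C_mul, C_neg, C_pow, C_ofNat]
        ring
      obtain ⟨t, ht, ht2⟩ := main_step swp E L M Z q₂ q₃ κ s 3 hM hadj hfr h2 hrel hκd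
        (by rw [h9]; exact natDegree_cubic_le)
        (by
          rw [h9]
          have h10 : (C 1 * X ^ 3 +
              C (b ^ 2 + q₂.coeff 1 * b - q₂.coeff 0 * A + q₃.coeff 2) * X ^ 2 +
              C (q₂.coeff 0 * b + q₃.coeff 1) * X + C (q₃.coeff 0) : Polynomial E).coeff 3 = 1 := by
            rw [coeff_add, coeff_add, coeff_add, coeff_C_mul_X_pow, coeff_C_mul_X_pow,
              coeff_C_mul_X, coeff_C]
            norm_num
          rw [h10]
          exact one_ne_zero) (by norm_num)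
      exact ⟨t, ht, by rw [ht2]; ring⟩

end Pool.Agent.DDQ.H65
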